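import Pool.Agent.Helper3.FS.Glue

/-! Project FS (MP_75608d_al): the middle levels and the top levels give the theorem. -/

namespace Pool.Agent.Helper6.FS

open Filter Topology Pool.Agent.Helper3.FS

/-- middle levels `n^β ≤ s ≤ n/(c log n)` and top levels `n/(c log n) ≤ s ≤ κ n` together -/
theorem end_of_two {β κ : ℝ} (hβ : β < 1) (hκ : 0 < κ) {mid : ℕ → ℝ}
    (hmid : S_PART (fun n => (n : ℝ) ^ β) mid) (htop : S_PART mid (fun n => κ * n)) : S_END :=
  end_of_part hβ hκ (part_union hmid htop)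

/-- the same with the interfaces of the middle part and of the top part -/
theorem end_of_two' (hmid : ∀ ε : ℝ, 0 < ε → ∃ β : ℝ, β < 1 ∧
      S_EXC (fun n => (n : ℝ) ^ β) (fun n => (n : ℝ) / (ε * Real.log n)))
    (htop : ∀ C1 : ℝ, 0 < C1 → ∃ C2 : ℝ, 0 < C2 ∧
      S_PART (fun n => (n : ℝ) / (C1 * Real.log n)) (fun n => (n : ℝ) / C2)) : S_END := by
  obtain ⟨β, hβ, hm⟩ := hmid 1 one_pos
  obtain ⟨C2, hC2, ht⟩ := htop 1 one_pos
  refine end_of_two hβ (inv_pos.2 hC2) (part_of_exc hm) (part_range ht ?_ ?_)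
  · exact Eventually.of_forall fun n => le_rfl
  · exact Eventually.of_forall fun n => le_of_eq (by ring)

end Pool.Agent.Helper6.FS
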